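import Pool.Agent.H2.NL.Basic

set_option autoImplicit false
set_option linter.unusedSectionVars false

open Matrix

namespace Pool.Agent.H36.NL

open Pool.Agent.H2.NL Pool.Agent.H64.CC

variable {K : Type} [Field K] {I : Type} [Fintype I]

/-- `T` acting at the place `j` -/
private def dj (T : Matrix I I K) : ℕ → (List I → K) → List I → K
  | 0, f, a :: l => ∑ b, T a b * f (b :: l)
  | 0, _, [] => 0
  | j + 1, f, a :: l => dj T j (fun l' => f (a :: l')) l
  | _ + 1, _, [] => 0

private theorem dj_append (T : Matrix I I K) (α : List I) : ∀ (f : List I → K) (a : I)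
    (β : List I), dj T α.length f (α ++ a :: β) = ∑ b, T a b * f (α ++ b :: β) := by
  induction α with
  | nil => intro f a β; rfl
  | cons x α ih => intro f a β; exact ih (fun l' => f (x :: l')) a β

private theorem der_eq (T : Matrix I I K) (w : List I) : ∀ f : List I → K,
    der T f w = ∑ j ∈ Finset.range w.length, dj T j f w := by
  induction w with
  | nil => intro f; rfl
  | cons a l ih =>
    intro f
    rw [List.length_cons, Finset.sum_range_succ']
    change ∑ b, T a b * f (b :: l) + der T (fun l' => f (a :: l')) l = _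
    rw [ih, add_comm]
    rfl

variable [DecidableEq I] (F : Form K I)

private theorem Pr_congr (n : ℕ) : ∀ f f' g g' : List I → K,
    (∀ w : List I, w.length = n → f w = f' w) → (∀ w : List I, w.length = n → g w = g' w) →
    Pr F n f g = Pr F n f' g' := by
  induction n with
  | zero =>
    intro f f' g g' h h'
    change f [] * g [] = f' [] * g' []
    rw [h [] rfl, h' [] rfl]
  | succ n ih =>
    intro f f' g g' h h'
    change ∑ a, F.c a * Pr F n (fun l => f (a :: l)) (fun l => g (F.st a :: l)) =
      ∑ a, F.c a * Pr F n (fun l => f' (a :: l)) (fun l => g' (F.st a :: l))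
    refine Finset.sum_congr rfl fun a _ => ?_
    rw [ih _ _ _ _ (fun w hw => h (a :: w) (by rw [List.length_cons, hw]))
      (fun w hw => h' (F.st a :: w) (by rw [List.length_cons, hw]))]

private theorem Pr_sum {J : Type} (s : Finset J) (n : ℕ) : ∀ (f : J → List I → K)
    (g : List I → K), Pr F n (fun w => ∑ i ∈ s, f i w) g = ∑ i ∈ s, Pr F n (f i) g := by
  induction n with
  | zero =>
    intro f g
    change (∑ i ∈ s, f i []) * g [] = ∑ i ∈ s, f i [] * g []
    rw [Finset.sum_mul]
  | succ n ih =>
    intro f g
    change ∑ a, F.c a * Pr F n (fun l => ∑ i ∈ s, f i (a :: l)) (fun l => g (F.st a :: l)) =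
      ∑ i ∈ s, ∑ a, F.c a * Pr F n (fun l => f i (a :: l)) (fun l => g (F.st a :: l))
    rw [Finset.sum_comm]
    refine Finset.sum_congr rfl fun a _ => ?_
    rw [ih (fun i l => f i (a :: l)), Finset.mul_sum]

private theorem Pr_smul (s : K) (n : ℕ) : ∀ f g : List I → K,
    Pr F n (fun w => s * f w) g = s * Pr F n f g := by
  induction n with
  | zero =>
    intro f g
    change s * f [] * g [] = s * (f [] * g [])
    ring
  | succ n ih =>
    intro f g
    change ∑ a, F.c a * Pr F n (fun l => s * f (a :: l)) (fun l => g (F.st a :: l)) =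
      s * ∑ a, F.c a * Pr F n (fun l => f (a :: l)) (fun l => g (F.st a :: l))
    rw [Finset.mul_sum]
    refine Finset.sum_congr rfl fun a _ => ?_
    rw [ih]
    ring

private theorem step (hPSW : T_PSW) (T : Matrix I I K) (hT : ∀ a b, T a b ≠ 0 → F.o a = F.o b)
    (n : ℕ) (f g : List I → K) (hf : Symm F.o (n + 1) f) (hg : Symm F.o (n + 1) g) (j : ℕ)
    (hj : j + 1 ≤ n) : Pr F (n + 1) (dj T (j + 1) f) g = Pr F (n + 1) (dj T j f) g := by
  have h1 : Pr F (n + 1) (dj T (j + 1) f) g = Pr F (n + 1) (sw F.o j (dj T j f)) g := by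
    refine Pr_congr F _ _ _ _ _ (fun w hw => ?_) (fun w _ => rfl)
    obtain ⟨α, a, b, β, hα, hwe⟩ := exists_split j w (by omega)
    subst hα
    subst hwe
    have h2 : dj T (α.length + 1) f (α ++ a :: b :: β) = ∑ d, T b d * f (α ++ a :: d :: β) := by
      have h3 := dj_append T (α ++ [a]) f b β
      rw [List.length_append, List.length_singleton, List.append_assoc,
        List.singleton_append] at h3
      rw [h3]
      refine Finset.sum_congr rfl fun d _ => ?_
      rw [List.append_assoc, List.singleton_append]
    rw [h2, sw_append, dj_append, Finset.mul_sum]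
    refine Finset.sum_congr rfl fun d _ => ?_
    by_cases hbd : T b d = 0
    · rw [hbd, zero_mul, zero_mul, mul_zero]
    · have h4 := hf α.length (by omega) (α ++ d :: a :: β)
        (by rw [← hw, List.length_append, List.length_append, List.length_cons,
          List.length_cons, List.length_cons, List.length_cons])
      rw [sw_append] at h4
      rw [← h4, hT b d hbd, ks_comm K (F.o a) (F.o d)]
      have h5 := ks_mul_self K (F.o d) (F.o a)
      linear_combination -(T b d * f (α ++ a :: d :: β)) * h5
  rw [h1, (hPSW K I F (n + 1) j (dj T j f) g (by omega)).2]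
  exact Pr_congr F _ _ _ _ _ (fun w _ => rfl) (fun w hw => hg j (by omega) w hw)

theorem pf_DER (hPSW : T_PSW) : T_DER := by
  intro K _ I _ _ F T hT n f g hf hg
  have h0 : Pr F (n + 1) (dj T 0 f) g = ∑ e, ∑ b, F.c e * T e b *
      Pr F n (fun l => f (b :: l)) (fun l => g (F.st e :: l)) := by
    change ∑ e, F.c e * Pr F n (fun l => ∑ b, T e b * f (b :: l)) (fun l => g (F.st e :: l)) = _
    refine Finset.sum_congr rfl fun e _ => ?_
    rw [Pr_sum F Finset.univ n (fun b l => T e b * f (b :: l)), Finset.mul_sum]
    refine Finset.sum_congr rfl fun b _ => ?_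
    rw [Pr_smul F (T e b) n (fun l => f (b :: l)), mul_assoc]
  have h1 : ∀ j ≤ n, Pr F (n + 1) (dj T j f) g = Pr F (n + 1) (dj T 0 f) g := by
    intro j
    induction j with
    | zero => intro _; rfl
    | succ j ih =>
      intro hj
      rw [step F hPSW T hT n f g hf hg j hj, ih (by omega)]
  have h2 : Pr F (n + 1) (der T f) g =
      ∑ j ∈ Finset.range (n + 1), Pr F (n + 1) (dj T j f) g := by
    rw [← Pr_sum]
    refine Pr_congr F _ _ _ _ _ (fun w hw => ?_) (fun w _ => rfl)
    rw [der_eq, hw]
  rw [h2, Finset.sum_congr rfl (fun j hj => h1 j (by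
    have := Finset.mem_range.1 hj
    omega)), Finset.sum_const, Finset.card_range, h0, nsmul_eq_mul]
  push_cast
  rfl

end Pool.Agent.H36.NL
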