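import Pool.Agent.H2.NL.Basic

set_option autoImplicit false

open Matrix

namespace Pool.Agent.H36.NL

open Pool.Agent.H2.NL Pool.Agent.H64.CC

private theorem sw0 {K : Type} [Field K] {I : Type} (o : I → Bool) (t : List I → K)
    (a b : I) (β : List I) :
    sw o 0 t (a :: b :: β) = ks K (o a) (o b) * t (b :: a :: β) := rfl

private theorem ωc {K : Type} [Field K] {I : Type} [Fintype I] [DecidableEq I] (F : Form K I)
    (a p : I) : F.ω a (F.st p) * F.c (F.st p) = if a = p then 1 else 0 := by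
  rw [Form.ω, Matrix.of_apply]
  by_cases h : a = p
  · rw [if_pos h, if_pos (congrArg _ h.symm), F.c_mul_self]
  · rw [if_neg h, if_neg (fun h' => h (F.st_inj h').symm), zero_mul]

private theorem uval {K : Type} [Field K] {I : Type} [Fintype I] [DecidableEq I] (F : Form K I)
    (a d r s : I) : sw F.o 2 (sw F.o 1 (tp (2 * 1) (two F.ω) (two F.ω))) [a, d, r, s] =
    F.ω a s * F.ω d r := by
  have h1 : sw F.o 2 (sw F.o 1 (tp (2 * 1) (two F.ω) (two F.ω))) [a, d, r, s] =
      ks K (F.o r) (F.o s) * (ks K (F.o d) (F.o s) * (F.ω a s * F.ω d r)) := rfl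
  rw [h1]
  by_cases h : r = F.st d
  · rw [h, F.o_st, ← mul_assoc, ks_mul_self, one_mul]
  · have h2 : F.ω d r = 0 := by rw [Form.ω, Matrix.of_apply, if_neg h]
    rw [h2, mul_zero, mul_zero, mul_zero]

theorem pf_UNI : T_UNI := by
  intro K _ _ I _ _ F A hA
  have h1 : sw F.o 2 (sw F.o 1 (tp (2 * 1) (two F.ω) (two F.ω))) ∈ A 2 :=
    hA.sw 2 2 _ (hA.sw 2 1 _ (hA.tp 1 1 _ _ hA.om hA.om) (by norm_num)) (by norm_num)
  refine ⟨⟨_, h1, ?_⟩, ⟨_, hA.sw 2 0 _ h1 (by norm_num), ?_⟩, ?_⟩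
  · ext ⟨a, d⟩ ⟨p, q⟩
    rw [M4, Matrix.of_apply, Matrix.one_apply]
    change sw F.o 2 (sw F.o 1 (tp (2 * 1) (two F.ω) (two F.ω))) [a, d, F.st q, F.st p] *
      (F.c (F.st p) * F.c (F.st q)) = _
    rw [uval]
    have h2 := ωc F a p
    have h3 := ωc F d q
    have h4 : F.ω a (F.st p) * F.ω d (F.st q) * (F.c (F.st p) * F.c (F.st q)) =
        (if a = p then 1 else 0) * (if d = q then 1 else 0) := by
      rw [← h2, ← h3]
      ring
    rw [h4]
    by_cases hap : a = p <;> by_cases hdq : d = q <;> simp [hap, hdq]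
  · ext ⟨a, d⟩ ⟨p, q⟩
    rw [M4, Matrix.of_apply, Sx, Matrix.of_apply]
    change sw F.o 0 (sw F.o 2 (sw F.o 1 (tp (2 * 1) (two F.ω) (two F.ω))))
      [a, d, F.st q, F.st p] * (F.c (F.st p) * F.c (F.st q)) =
      if a = q ∧ d = p then ks K (F.o a) (F.o d) else 0
    rw [sw0, uval]
    have h2 := ωc F d p
    have h3 := ωc F a q
    have h4 : ks K (F.o a) (F.o d) * (F.ω d (F.st p) * F.ω a (F.st q)) *
        (F.c (F.st p) * F.c (F.st q)) =
        ks K (F.o a) (F.o d) * ((if d = p then 1 else 0) * (if a = q then 1 else 0)) := by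
      rw [← h2, ← h3]
      ring
    rw [h4]
    by_cases hap : a = q <;> by_cases hdq : d = p <;> simp [hap, hdq]
  · ext ⟨a, d⟩ ⟨p, q⟩
    rw [Matrix.mul_apply, Matrix.one_apply, Finset.sum_eq_single (d, a)]
    · rw [Sx, Matrix.of_apply, Matrix.of_apply]
      change (if a = a ∧ d = d then ks K (F.o a) (F.o d) else 0) *
        (if d = q ∧ a = p then ks K (F.o d) (F.o a) else 0) = _
      rw [if_pos ⟨rfl, rfl⟩]
      by_cases h : d = q ∧ a = p
      · rw [if_pos h, if_pos (Prod.ext h.2 h.1), ks_comm K (F.o d) (F.o a), ks_mul_self]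
      · rw [if_neg h, if_neg (fun h' => h ⟨congrArg Prod.snd h', congrArg Prod.fst h'⟩), mul_zero]
    · rintro ⟨x, y⟩ - hxy
      rw [Sx, Matrix.of_apply]
      change (if a = y ∧ d = x then ks K (F.o a) (F.o d) else 0) * _ = 0
      rw [if_neg (fun h => hxy (Prod.ext h.2.symm h.1.symm)), zero_mul]
    · intro h
      exact absurd (Finset.mem_univ _) h

end Pool.Agent.H36.NL
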